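import Mathlib
import Pool.Agent.MP_23f360_gt.Main

set_option autoImplicit false
set_option maxSynthPendingDepth 3

open Cardinal Set Topology

namespace Pool.Agent.Results.MP_23f360_gt.SquareCounterexample

open Pool.Agent.MP_23f360_gt

/-- A topological abelian group is d-independent if it is non-trivial and every subgroup of
cardinality below the continuum meets some countable dense subgroup only in zero. -/
def DIndependent (A : Type) [AddCommGroup A] [TopologicalSpace A] : Prop :=
  Nontrivial A ∧ ∀ S : AddSubgroup A, Cardinal.mk S < Cardinal.continuum →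
    ∃ D : AddSubgroup A, Countable D ∧ Dense (D : Set A) ∧ S ⊓ D = ⊥

/-- There is a Hausdorff abelian topological group which is not d-independent although its
square is. -/
theorem result : ∃ (A : Type) (_ : AddCommGroup A) (_ : TopologicalSpace A),
    IsTopologicalAddGroup A ∧ T2Space A ∧ DIndependent (A × A) ∧ ¬ DIndependent A := by
  classical
  obtain ⟨z, hsep, hkill, hind⟩ := exists_chars
  let Z : G →+ (I → F) := (LinearMap.pi z).toAddMonoidHom
  have hZ : ∀ g i, Z g i = z i g := fun _ _ => rfl
  let τ : TopologicalSpace G := TopologicalSpace.induced Z inferInstance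
  have hZi : IsInducing Z := ⟨rfl⟩
  have hZinj : Function.Injective Z := by
    rw [injective_iff_map_eq_zero]
    intro g hg
    by_contra h
    obtain ⟨i, hi⟩ := hsep g h
    exact hi (congrFun hg i)
  have hcont : ∀ i, Continuous (z i) := fun i => (continuous_apply i).comp hZi.continuous
  refine ⟨G, inferInstance, τ, topologicalAddGroup_induced Z,
    (IsEmbedding.mk hZi hZinj).t2Space, ⟨inferInstance, ?_⟩, ?_⟩
  · intro S hS
    obtain ⟨γ, hγ⟩ := exists_free_coord S hS
    refine ⟨(delta γ).toAddMonoidHom.range, ?_, ?_, ?_⟩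
    · exact (countable_range (delta γ)).to_subtype
    · rw [(hZi.prodMap hZi).dense_iff]
      intro x
      rw [mem_closure_iff_nhds]
      intro t ht
      rw [nhds_prod_eq, Filter.mem_prod_iff] at ht
      obtain ⟨t1, ht1, t2, ht2, hsub⟩ := ht
      rw [nhds_pi, Filter.mem_pi'] at ht1 ht2
      obtain ⟨J1, s1, hs1, h1⟩ := ht1
      obtain ⟨J2, s2, hs2, h2⟩ := ht2
      obtain ⟨w, hw⟩ := surj_finite z γ (hind γ) (J1 ∪ J2) (Z x.1) (Z x.2)
      refine ⟨Prod.map Z Z (delta γ w), hsub ⟨h1 ?_, h2 ?_⟩, ⟨delta γ w, ⟨w, rfl⟩, rfl⟩⟩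
      · intro i hi
        have := (hw i (Finset.mem_union_left _ hi)).1
        show z i (delta γ w).1 ∈ s1 i
        rw [this]
        exact mem_of_mem_nhds (hs1 i)
      · intro i hi
        have := (hw i (Finset.mem_union_right _ hi)).2
        show z i (delta γ w).2 ∈ s2 i
        rw [this]
        exact mem_of_mem_nhds (hs2 i)
    · rw [eq_bot_iff]
      rintro x ⟨hxS, ⟨w, rfl⟩⟩
      obtain ⟨h1, h2⟩ := hγ _ hxS
      have hw1 : w.1 = 0 := by simpa [delta] using h1
      have hw2 : w.2 = 0 := by simpa [delta] using h2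
      have : w = 0 := Prod.ext hw1 hw2
      simp [this]
  · rintro ⟨-, h⟩
    obtain ⟨D, hDc, hDd, hD⟩ := h (AddMonoidHom.inl E W).range (by
      refine lt_of_le_of_lt ?_ aleph0_lt_continuum
      exact (countable_range (AddMonoidHom.inl E W)).le_aleph0)
    obtain ⟨d, hd⟩ := (countable_coe_iff.1 hDc : (D : Set G).Countable).exists_eq_range
      ⟨0, D.zero_mem⟩
    have hspan : ∀ x ∈ Submodule.span F (range d), x ∈ D := by
      intro x hx
      induction hx using Submodule.span_induction with
      | mem x hx => rw [← hd] at hx; exact hx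
      | zero => exact D.zero_mem
      | add x y _ _ hx hy => exact D.add_mem hx hy
      | smul k x _ hx =>
        have hk : ∀ k : F, k = 0 ∨ k = 1 := by decide
        rcases hk k with rfl | rfl
        · simp
        · simpa using hx
    obtain ⟨i, ⟨g, hg⟩, hi⟩ := hkill d (by
      intro x hx hx2
      have : x ∈ (AddMonoidHom.inl E W).range ⊓ D := ⟨⟨x.1, Prod.ext rfl hx2.symm⟩, hspan x hx⟩
      rw [hD, AddSubgroup.mem_bot] at this
      rw [this]; rfl)
    have hcl : IsClosed {x : G | z i x = 0} := isClosed_eq (hcont i) continuous_const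
    have hsub : (D : Set G) ⊆ {x : G | z i x = 0} := by
      rw [hd]
      rintro _ ⟨n, rfl⟩
      exact hi n
    exact hg (closure_minimal hsub hcl (hDd g))

end Pool.Agent.Results.MP_23f360_gt.SquareCounterexample
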